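import Mathlib
import Pool.Agent.Y90.Pie4

/-!
# Irreducible submodules with two eigenspaces of dimension two, without elements of rank one
-/

set_option linter.unusedSectionVars false

namespace Pool.Agent.Y79.S4

open Matrix Module Pool.Agent.Y90 Pool.Agent.W437.HC Pool.Agent.W437.HD Pool.Agent.W548.Odd

noncomputable section

variable {g : ℕ} {Z : Matrix (Fin g) (Fin g) ℂ}

/-- Elements of degree one. -/
structure Up (Z : Matrix (Fin g) (Fin g) ℂ) (N : Matrix (Fin g ⊕ Fin g) (Fin g ⊕ Fin g) ℂ) :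
    Prop where
  mem : N ∈ LZ Z
  l : DZ Z * N = N
  r : N * DZ Z = -N

theorem Up.kill {N : Matrix (Fin g ⊕ Fin g) (Fin g ⊕ Fin g) ℂ} (h : Up Z N)
    {u : Fin g ⊕ Fin g → ℂ} (hu : u ∈ eig Z 1) : N *ᵥ u = 0 := by
  have h1 : N *ᵥ u = -(N *ᵥ u) := by
    calc N *ᵥ u = N *ᵥ (DZ Z *ᵥ u) := by rw [mem_eig.1 hu, one_smul]
      _ = -(N *ᵥ u) := by rw [mulVec_mulVec, h.r, neg_mulVec]
  have h2 : (2 : ℂ) • (N *ᵥ u) = 0 := by
    rw [two_smul]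
    nth_rewrite 1 [h1]
    exact neg_add_cancel _
  exact (smul_eq_zero.1 h2).resolve_left two_ne_zero

theorem Up.im {N : Matrix (Fin g ⊕ Fin g) (Fin g ⊕ Fin g) ℂ} (h : Up Z N)
    (u : Fin g ⊕ Fin g → ℂ) : N *ᵥ u ∈ eig Z 1 := by
  rw [mem_eig, mulVec_mulVec, h.l, one_smul]

theorem Up.sub_smul {N N' : Matrix (Fin g ⊕ Fin g) (Fin g ⊕ Fin g) ℂ} (h : Up Z N)
    (h' : Up Z N') (c : ℂ) : Up Z (N' - c • N) := by
  refine ⟨Submodule.sub_mem _ h'.mem (Submodule.smul_mem _ c h.mem), ?_, ?_⟩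
  · rw [mul_sub, mul_smul_comm, h.l, h'.l]
  · rw [sub_mul, smul_mul_assoc, h.r, h'.r, smul_neg]
    abel

theorem half (h : PM Z) {W : Submodule ℂ (Fin g ⊕ Fin g → ℂ)} (hW : Stab (LZ Z) W)
    {v : Fin g ⊕ Fin g → ℂ} (hv : v ∈ W) :
    ∃ a ∈ W ⊓ eig Z 1, ∃ b ∈ W ⊓ eig Z (-1), v = a + b := by
  have h2 : DZ Z *ᵥ (DZ Z *ᵥ v) = v := by rw [mulVec_mulVec, DZ_sq h.det, one_mulVec]
  have h3 := hW _ DZ_mem v hv
  refine ⟨(1 / 2 : ℂ) • (v + DZ Z *ᵥ v), ⟨W.smul_mem _ (W.add_mem hv h3), ?_⟩,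
    (1 / 2 : ℂ) • (v - DZ Z *ᵥ v), ⟨W.smul_mem _ (W.sub_mem hv h3), ?_⟩, by module⟩
  · rw [SetLike.mem_coe, mem_eig, mulVec_smul, mulVec_add, h2]
    module
  · rw [SetLike.mem_coe, mem_eig, mulVec_smul, mulVec_sub, h2]
    module

/-- There is an element of degree one which does not vanish on the submodule. -/
theorem exists_up' (h : PM Z) {U : Submodule ℂ (Fin g ⊕ Fin g → ℂ)} (hU : IrS (LZ Z) U)
    (hp : pd Z U ≠ 0) (hq : qd Z U ≠ 0) :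
    ∃ N, Up Z N ∧ ∃ u ∈ U, N *ᵥ u ≠ 0 := by
  by_contra hcon
  push Not at hcon
  have hst : Stab (LZ Z) (U ⊓ eig Z (-1)) := by
    rintro y hy u ⟨hu, hu'⟩
    refine ⟨hU.2.1 y hy u hu, ?_⟩
    have h1 := hcon _ ⟨up_mem h hy, up_l h y, up_r h y⟩ u hu
    have hu2 : DZ Z *ᵥ u = (-1 : ℂ) • u := hu'
    have h2 : (1 - DZ Z) *ᵥ u = (2 : ℂ) • u := by
      rw [sub_mulVec, one_mulVec, hu2]
      module
    rw [smul_mulVec, ← mulVec_mulVec, ← mulVec_mulVec, h2, mulVec_smul, mulVec_smul, smul_smul,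
      add_mulVec, one_mulVec] at h1
    have h3 := (smul_eq_zero.1 h1).resolve_left (by norm_num)
    rw [SetLike.mem_coe, mem_eig, neg_one_smul]
    exact eq_neg_of_add_eq_zero_right h3
  rcases hU.2.2 _ inf_le_left hst with h1 | h1
  · apply hq
    unfold qd
    rw [h1, finrank_bot]
  · apply hp
    unfold pd
    have h2 : U ⊓ eig Z 1 = ⊥ := by
      rw [eq_bot_iff, ← eig_inf (Z := Z) 1 (-1) (by norm_num)]
      rintro x ⟨hx, hx'⟩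
      rw [← h1] at hx
      exact ⟨hx', hx.2⟩
    rw [h2, finrank_bot]

/-- An element of degree one which is singular vanishes. -/
theorem Up.zero {W : Submodule ℂ (Fin g ⊕ Fin g → ℂ)}
    (hr : ¬Rk1 Z W) (hd : finrank ℂ W = 4) (hp : pd Z W = 2)
    {N : Matrix (Fin g ⊕ Fin g) (Fin g ⊕ Fin g) ℂ} (hN : Up Z N) {u : Fin g ⊕ Fin g → ℂ}
    (hu : u ∈ W) (hu1 : u ∈ eig Z (-1)) (hu0 : u ≠ 0) (hNu : N *ᵥ u = 0) :
    ∀ v ∈ W, N *ᵥ v = 0 := by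
  let f : W →ₗ[ℂ] (Fin g ⊕ Fin g → ℂ) := (mulVecLin N).domRestrict W
  have h5 := LinearMap.finrank_range_add_finrank_ker f
  have h6 : LinearMap.range f = W.map (mulVecLin N) := by
    rw [LinearMap.range_domRestrict]
  have h7 : (W ⊓ eig Z 1) ⊔ Submodule.span ℂ {u} ≤ (LinearMap.ker f).map W.subtype := by
    refine sup_le ?_ ?_
    · rintro x ⟨hx, hx'⟩
      exact ⟨⟨x, hx⟩, hN.kill hx', rfl⟩
    · rw [Submodule.span_singleton_le_iff_mem]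
      exact ⟨⟨u, hu⟩, hNu, rfl⟩
  have h8 := (Submodule.finrank_mono h7).trans (Submodule.finrank_map_le _ _)
  have h9 : (W ⊓ eig Z 1) ⊓ Submodule.span ℂ {u} = ⊥ := by
    rw [eq_bot_iff, ← eig_inf (Z := Z) 1 (-1) (by norm_num)]
    rintro x ⟨hx, hx'⟩
    refine ⟨hx.2, ?_⟩
    have h10 : Submodule.span ℂ {u} ≤ eig Z (-1) := by
      rw [Submodule.span_singleton_le_iff_mem]
      exact hu1
    exact h10 hx'
  have h11 := finrank_split h9 rfl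
  rw [finrank_span_singleton hu0] at h11
  have h12 : finrank ℂ (W ⊓ eig Z 1 : Submodule ℂ (Fin g ⊕ Fin g → ℂ)) = 2 := hp
  rw [h12] at h11
  rw [h6] at h5
  have h13 : finrank ℂ (W.map (mulVecLin N)) ≠ 1 := by
    intro h14
    exact hr ⟨DZ Z, Or.inl rfl, N, hN.mem, hN.l, hN.r, h14⟩
  have h14 : finrank ℂ (W.map (mulVecLin N)) = 0 := by omega
  intro v hv
  have h15 := Submodule.finrank_eq_zero.1 h14
  have h16 : N *ᵥ v ∈ W.map (mulVecLin N) := ⟨v, hv, rfl⟩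
  rwa [h15, Submodule.mem_bot] at h16

/-- Description of the submodule. -/
structure Fr (Z : Matrix (Fin g) (Fin g) ℂ) (W : Submodule ℂ (Fin g ⊕ Fin g → ℂ))
    (N : Matrix (Fin g ⊕ Fin g) (Fin g ⊕ Fin g) ℂ) (e₁ e₂ f₁ f₂ : Fin g ⊕ Fin g → ℂ) : Prop where
  up : Up Z N
  me₁ : e₁ ∈ W
  me₂ : e₂ ∈ W
  mf₁ : f₁ ∈ W
  mf₂ : f₂ ∈ W
  de₁ : DZ Z *ᵥ e₁ = -e₁
  de₂ : DZ Z *ᵥ e₂ = -e₂
  df₁ : DZ Z *ᵥ f₁ = f₁
  df₂ : DZ Z *ᵥ f₂ = f₂
  ne₁ : N *ᵥ e₁ = f₁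
  ne₂ : N *ᵥ e₂ = f₂
  nf₁ : N *ᵥ f₁ = 0
  nf₂ : N *ᵥ f₂ = 0
  gen : ∀ w ∈ W, ∃ x y z t : ℂ, w = x • e₁ + y • e₂ + z • f₁ + t • f₂
  ind : ∀ x y z t : ℂ, x • e₁ + y • e₂ + z • f₁ + t • f₂ = 0 → x = 0 ∧ y = 0 ∧ z = 0 ∧ t = 0
  act : ∀ X ∈ LZ Z, ∃ p q r s a b c : ℂ,
    X *ᵥ e₁ = p • e₁ + r • e₂ + a • f₁ ∧ X *ᵥ e₂ = q • e₁ + s • e₂ + a • f₂ ∧
    X *ᵥ f₁ = b • e₁ + (p + c) • f₁ + r • f₂ ∧ X *ᵥ f₂ = b • e₂ + q • f₁ + (s + c) • f₂

theorem exists_Fr (h : PM Z) {W : Submodule ℂ (Fin g ⊕ Fin g → ℂ)} (hW : IrS (LZ Z) W)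
    (hr : ¬Rk1 Z W) (hd : finrank ℂ W = 4) (hp : pd Z W = 2) :
    ∃ N e₁ e₂ f₁ f₂, Fr Z W N e₁ e₂ f₁ f₂ := by
  have hq : qd Z W = 2 := by
    have := pd_add_qd h hW.2.1
    omega
  obtain ⟨N, hN, u₀, hu₀, hNu₀⟩ := exists_up' h hW (by omega) (by omega)
  -- injectivity
  have hinj : ∀ u ∈ W ⊓ eig Z (-1), N *ᵥ u = 0 → u = 0 := by
    rintro u ⟨hu, hu'⟩ hNu
    by_contra hu1
    exact hNu₀ (Up.zero hr hd hp hN hu hu' hu1 hNu u₀ hu₀)
  have hq' : finrank ℂ (W ⊓ eig Z (-1) : Submodule ℂ (Fin g ⊕ Fin g → ℂ)) = 2 := hq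
  have hp' : finrank ℂ (W ⊓ eig Z 1 : Submodule ℂ (Fin g ⊕ Fin g → ℂ)) = 2 := hp
  -- the map between the eigenspaces
  let φ : ∀ M : Matrix (Fin g ⊕ Fin g) (Fin g ⊕ Fin g) ℂ, Up Z M →
      ((W ⊓ eig Z (-1) : Submodule ℂ (Fin g ⊕ Fin g → ℂ)) →ₗ[ℂ]
        (W ⊓ eig Z 1 : Submodule ℂ (Fin g ⊕ Fin g → ℂ))) := fun M hM =>
    ((mulVecLin M).domRestrict (W ⊓ eig Z (-1))).codRestrict (W ⊓ eig Z 1)
      (fun u => ⟨hW.2.1 M hM.mem u u.2.1, hM.im u⟩)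
  have hφ : ∀ M (hM : Up Z M) u, ((φ M hM u : _) : Fin g ⊕ Fin g → ℂ) = M *ᵥ u := fun M hM u => rfl
  have hφi : Function.Injective (φ N hN) := by
    rw [injective_iff_map_eq_zero]
    intro u hu
    apply Subtype.ext
    refine hinj u u.2 ?_
    rw [← hφ N hN, hu]
    rfl
  let E := LinearEquiv.ofInjectiveOfFinrankEq (φ N hN) hφi (by rw [hq', hp'])
  have hE : ∀ u, E u = φ N hN u := fun u => rfl
  have : Nontrivial (W ⊓ eig Z (-1) : Submodule ℂ (Fin g ⊕ Fin g → ℂ)) := by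
    apply Module.nontrivial_of_finrank_pos (R := ℂ)
    rw [hq']
    norm_num
  -- proportionality
  have hprop : ∀ M, Up Z M → ∃ c : ℂ, ∀ w ∈ W, M *ᵥ w = c • (N *ᵥ w) := by
    intro M hM
    obtain ⟨c, hc⟩ := Module.End.exists_eigenvalue
      (E.symm.toLinearMap ∘ₗ φ M hM : Module.End ℂ _)
    obtain ⟨u, hu⟩ := hc.exists_hasEigenvector
    have h1 := hu.apply_eq_smul
    have h2 : φ M hM u = c • φ N hN u := by
      have h3 : E (E.symm (φ M hM u)) = E (c • u) := congrArg E h1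
      rw [LinearEquiv.apply_symm_apply, map_smul, hE] at h3
      exact h3
    have h3 : M *ᵥ (u : Fin g ⊕ Fin g → ℂ) = c • (N *ᵥ (u : Fin g ⊕ Fin g → ℂ)) := by
      have := congrArg Subtype.val h2
      exact this
    refine ⟨c, fun w hw => ?_⟩
    have h4 := Up.zero hr hd hp (hN.sub_smul hM c) u.2.1 u.2.2
      (fun h0 => hu.2 (Subtype.ext h0)) (by
        rw [sub_mulVec, smul_mulVec, h3, sub_self]) w hw
    rw [sub_mulVec, smul_mulVec] at h4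
    exact sub_eq_zero.1 h4
  let bas : Basis (Fin 2) ℂ (W ⊓ eig Z (-1) : Submodule ℂ (Fin g ⊕ Fin g → ℂ)) :=
    finBasisOfFinrankEq ℂ _ hq'
  set e₁ : Fin g ⊕ Fin g → ℂ := (bas 0).1 with he₁
  set e₂ : Fin g ⊕ Fin g → ℂ := (bas 1).1 with he₂
  have hme₁ : e₁ ∈ W ⊓ eig Z (-1) := (bas 0).2
  have hme₂ : e₂ ∈ W ⊓ eig Z (-1) := (bas 1).2
  have hgenm : ∀ w ∈ W ⊓ eig Z (-1), ∃ x y : ℂ, w = x • e₁ + y • e₂ := by
    intro w hw
    refine ⟨bas.repr ⟨w, hw⟩ 0, bas.repr ⟨w, hw⟩ 1, ?_⟩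
    have h1 := bas.sum_repr ⟨w, hw⟩
    rw [Fin.sum_univ_two] at h1
    exact (congrArg Subtype.val h1).symm
  have hindm : ∀ x y : ℂ, x • e₁ + y • e₂ = 0 → x = 0 ∧ y = 0 := by
    intro x y hxy
    have h1 := bas.linearIndependent
    rw [Fintype.linearIndependent_iff] at h1
    have h2 := h1 ![x, y] (by
      rw [Fin.sum_univ_two]
      apply Subtype.ext
      exact hxy)
    exact ⟨h2 0, h2 1⟩
  have hgenp : ∀ w ∈ W ⊓ eig Z 1, ∃ x y : ℂ, w = x • (N *ᵥ e₁) + y • (N *ᵥ e₂) := by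
    intro w hw
    obtain ⟨x, y, hxy⟩ := hgenm (E.symm ⟨w, hw⟩) (E.symm ⟨w, hw⟩).2
    refine ⟨x, y, ?_⟩
    rw [← mulVec_smul, ← mulVec_smul, ← mulVec_add, ← hxy]
    have h1 : φ N hN (E.symm ⟨w, hw⟩) = ⟨w, hw⟩ := E.apply_symm_apply _
    exact (congrArg Subtype.val h1).symm
  have hde₁ : DZ Z *ᵥ e₁ = -e₁ := by rw [mem_eig.1 hme₁.2, neg_one_smul]
  have hde₂ : DZ Z *ᵥ e₂ = -e₂ := by rw [mem_eig.1 hme₂.2, neg_one_smul]
  have hdm : ∀ u ∈ W ⊓ eig Z (-1), DZ Z *ᵥ u = -u := by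
    intro u hu
    rw [mem_eig.1 hu.2, neg_one_smul]
  have hdp : ∀ v, DZ Z *ᵥ (N *ᵥ v) = N *ᵥ v := by
    intro v
    rw [mulVec_mulVec, hN.l]
  have hD2 : ∀ v : Fin g ⊕ Fin g → ℂ, DZ Z *ᵥ (DZ Z *ᵥ v) = v := fun v => by
    rw [mulVec_mulVec, DZ_sq h.det, one_mulVec]
  refine ⟨N, e₁, e₂, N *ᵥ e₁, N *ᵥ e₂, hN, hme₁.1, hme₂.1, hW.2.1 N hN.mem _ hme₁.1,
    hW.2.1 N hN.mem _ hme₂.1, hde₁, hde₂, hdp _, hdp _, rfl, rfl, hN.kill (hN.im _),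
    hN.kill (hN.im _), ?_, ?_, ?_⟩
  · intro w hw
    obtain ⟨a, ha, b, hb, rfl⟩ := half h hW.2.1 hw
    obtain ⟨x, y, rfl⟩ := hgenm b hb
    obtain ⟨z, t, rfl⟩ := hgenp a ha
    exact ⟨x, y, z, t, by abel⟩
  · intro x y z t h0
    have h1 := congrArg (fun v => DZ Z *ᵥ v) h0
    simp only [mulVec_add, mulVec_smul, hde₁, hde₂, hdp, mulVec_zero] at h1
    have h2 : x • e₁ + y • e₂ = 0 := by
      have h3 : (2 : ℂ) • (x • e₁ + y • e₂) =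
          (x • e₁ + y • e₂ + z • (N *ᵥ e₁) + t • (N *ᵥ e₂)) -
          (x • (-e₁) + y • (-e₂) + z • (N *ᵥ e₁) + t • (N *ᵥ e₂)) := by module
      rw [h0, h1, sub_self] at h3
      exact (smul_eq_zero.1 h3).resolve_left two_ne_zero
    have h4 : N *ᵥ (z • e₁ + t • e₂) = 0 := by
      rw [mulVec_add, mulVec_smul, mulVec_smul]
      rw [h2, zero_add] at h0
      exact h0
    have h5 := hinj _ ((W ⊓ eig Z (-1)).add_mem (Submodule.smul_mem _ z hme₁)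
      (Submodule.smul_mem _ t hme₂)) h4
    exact ⟨(hindm _ _ h2).1, (hindm _ _ h2).2, (hindm _ _ h5).1, (hindm _ _ h5).2⟩
  · intro X hX
    set P := (1 / 4 : ℂ) • ((1 + DZ Z) * X * (1 - DZ Z)) with hP
    set Q := (1 / 4 : ℂ) • ((1 - DZ Z) * X * (1 + DZ Z)) with hQ
    set Y := X - P - Q with hY
    have hPup : Up Z P := ⟨up_mem h hX, up_l h X, up_r h X⟩
    have hQm : Q ∈ LZ Z := dn_mem h hX
    have hQl : DZ Z * Q = -Q := dn_l h X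
    have hQr : Q * DZ Z = Q := dn_r h X
    have hYm : Y ∈ LZ Z := Submodule.sub_mem _ (Submodule.sub_mem _ hX hPup.mem) hQm
    have hYD : DZ Z * Y = Y * DZ Z := by
      rw [hY, mul_sub, mul_sub, sub_mul, sub_mul, hPup.l, hPup.r, hQl, hQr, hP, hQ]
      have h1 : DZ Z * X - X * DZ Z = (1 / 2 : ℂ) • ((1 + DZ Z) * X * (1 - DZ Z))
          - (1 / 2 : ℂ) • ((1 - DZ Z) * X * (1 + DZ Z)) := by
        have h2 : (1 + DZ Z) * X * (1 - DZ Z) - (1 - DZ Z) * X * (1 + DZ Z)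
            = (2 : ℂ) • (DZ Z * X - X * DZ Z) := by
          rw [two_smul]
          noncomm_ring
        rw [← smul_sub, h2, smul_smul]
        norm_num
      have h3 : DZ Z * X = X * DZ Z + ((1 / 2 : ℂ) • ((1 + DZ Z) * X * (1 - DZ Z))
          - (1 / 2 : ℂ) • ((1 - DZ Z) * X * (1 + DZ Z))) := by rw [← h1]; abel
      rw [h3]
      module
    have hXe : X = Y + P + Q := by rw [hY]; abel
    obtain ⟨a, ha⟩ := hprop P hPup
    -- the bracket of `Y` and `N`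
    have hYN : Up Z (Y * N - N * Y) := by
      refine ⟨LZ_br hYm hN.mem, ?_, ?_⟩
      · rw [mul_sub, ← mul_assoc, hYD, mul_assoc, hN.l, ← mul_assoc, hN.l]
      · rw [sub_mul, mul_assoc, hN.r, mul_assoc, ← hYD, ← mul_assoc, hN.r]
        noncomm_ring
    obtain ⟨c, hc⟩ := hprop _ hYN
    -- the triple product
    have hNQN : Up Z (N * Q * N) := by
      have hNN : N * N = 0 := by
        have h3 : N * N = -(N * N) := by
          calc N * N = N * (DZ Z * N) := by rw [hN.l]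
            _ = -(N * N) := by rw [← mul_assoc, hN.r, neg_mul]
        have h4 : (2 : ℂ) • (N * N) = 0 := by
          rw [two_smul]
          nth_rewrite 1 [h3]
          rw [neg_add_cancel]
        exact (smul_eq_zero.1 h4).resolve_left two_ne_zero
      refine ⟨?_, ?_, ?_⟩
      · have h1 := LZ_br (LZ_br hN.mem hQm) hN.mem
        have h2 : (N * Q - Q * N) * N - N * (N * Q - Q * N) = (2 : ℂ) • (N * Q * N) := by
          have h3 : (N * Q - Q * N) * N - N * (N * Q - Q * N) =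
              (2 : ℂ) • (N * Q * N) - (Q * (N * N) + (N * N) * Q) := by
            rw [two_smul]
            noncomm_ring
          rw [h3, hNN, mul_zero, zero_mul, add_zero, sub_zero]
        rw [h2] at h1
        have h3 := Submodule.smul_mem _ (1 / 2 : ℂ) h1
        rw [smul_smul] at h3
        norm_num at h3
        exact h3
      · rw [← mul_assoc, ← mul_assoc, hN.l]
      · rw [mul_assoc, hN.r, mul_neg]
    obtain ⟨b, hb⟩ := hprop _ hNQN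
    have hQdn : ∀ v ∈ W, Q *ᵥ v ∈ W ⊓ eig Z (-1) := by
      intro v hv
      refine ⟨hW.2.1 Q hQm v hv, ?_⟩
      rw [SetLike.mem_coe, mem_eig, mulVec_mulVec, hQl, neg_mulVec, neg_one_smul]
    have hQe : ∀ u ∈ W ⊓ eig Z (-1), Q *ᵥ u = 0 := by
      intro u hu
      have h1 : Q *ᵥ u = -(Q *ᵥ u) := by
        calc Q *ᵥ u = (Q * DZ Z) *ᵥ u := by rw [hQr]
          _ = -(Q *ᵥ u) := by rw [← mulVec_mulVec, hdm u hu, mulVec_neg]
      have h2 : (2 : ℂ) • (Q *ᵥ u) = 0 := by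
        rw [two_smul]
        nth_rewrite 1 [h1]
        exact neg_add_cancel _
      exact (smul_eq_zero.1 h2).resolve_left two_ne_zero
    have hQf : ∀ u ∈ W ⊓ eig Z (-1), Q *ᵥ (N *ᵥ u) = b • u := by
      intro u hu
      have h1 := hb u hu.1
      have h2 : N *ᵥ (Q *ᵥ (N *ᵥ u) - b • u) = 0 := by
        rw [mulVec_sub, mulVec_smul, mulVec_mulVec, mulVec_mulVec, h1, sub_self]
      exact sub_eq_zero.1 (hinj _ (Submodule.sub_mem _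
        (hQdn _ (hW.2.1 N hN.mem u hu.1)) (Submodule.smul_mem _ b hu)) h2)
    have hYe : ∀ u ∈ W ⊓ eig Z (-1), Y *ᵥ u ∈ W ⊓ eig Z (-1) := by
      intro u hu
      refine ⟨hW.2.1 Y hYm u hu.1, ?_⟩
      rw [SetLike.mem_coe, mem_eig, mulVec_mulVec, hYD, ← mulVec_mulVec, hdm u hu, mulVec_neg,
        neg_one_smul]
    have hYf : ∀ u ∈ W ⊓ eig Z (-1), Y *ᵥ (N *ᵥ u) = N *ᵥ (Y *ᵥ u) + c • (N *ᵥ u) := by
      intro u hu
      have h1 := hc u hu.1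
      rw [sub_mulVec, ← mulVec_mulVec, ← mulVec_mulVec] at h1
      rw [← h1]
      abel
    obtain ⟨p, r, hpr⟩ := hgenm _ (hYe e₁ hme₁)
    obtain ⟨q, s, hqs⟩ := hgenm _ (hYe e₂ hme₂)
    have hPf : ∀ v, P *ᵥ (N *ᵥ v) = 0 := fun v => hPup.kill (hN.im v)
    refine ⟨p, q, r, s, a, b, c, ?_, ?_, ?_, ?_⟩
    · rw [hXe, add_mulVec, add_mulVec, hpr, ha _ hme₁.1, hQe _ hme₁, add_zero]
    · rw [hXe, add_mulVec, add_mulVec, hqs, ha _ hme₂.1, hQe _ hme₂, add_zero]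
    · rw [hXe, add_mulVec, add_mulVec, hYf _ hme₁, hpr, hPf, hQf _ hme₁, mulVec_add, mulVec_smul,
        mulVec_smul]
      module
    · rw [hXe, add_mulVec, add_mulVec, hYf _ hme₂, hqs, hPf, hQf _ hme₂, mulVec_add, mulVec_smul,
        mulVec_smul]
      module

end

end Pool.Agent.Y79.S4
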