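import Mathlib
import Pool.Agent.Y79.S4.Struct
import Pool.Agent.Y90.S.Jobs

/-!
# Rank one elements in dimension four
-/

set_option linter.unusedSectionVars false

namespace Pool.Agent.Y79.S4

open Matrix Module Pool.Agent.Y90 Pool.Agent.Y90.S Pool.Agent.W437.HC Pool.Agent.W437.HD
  Pool.Agent.W548.Odd

noncomputable section

variable {g : ℕ} {Z : Matrix (Fin g) (Fin g) ℂ}

/-- The bilinear form of a matrix. -/
def mB (M : Matrix (Fin g ⊕ Fin g) (Fin g ⊕ Fin g) ℂ) :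
    (Fin g ⊕ Fin g → ℂ) →ₗ[ℂ] (Fin g ⊕ Fin g → ℂ) →ₗ[ℂ] ℂ :=
  LinearMap.mk₂ ℂ (fun u v => u ⬝ᵥ (M *ᵥ v))
    (fun u u' v => add_dotProduct _ _ _) (fun c u v => smul_dotProduct _ _ _)
    (fun u v v' => by rw [mulVec_add, dotProduct_add])
    (fun c u v => by rw [mulVec_smul, dotProduct_smul])

theorem mB_apply (M : Matrix (Fin g ⊕ Fin g) (Fin g ⊕ Fin g) ℂ) (u v : Fin g ⊕ Fin g → ℂ) :
    mB M u v = u ⬝ᵥ (M *ᵥ v) := rfl

theorem mB_anti {M : Matrix (Fin g ⊕ Fin g) (Fin g ⊕ Fin g) ℂ} (hM : Mᵀ = -M)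
    (u v : Fin g ⊕ Fin g → ℂ) : mB M u v = -mB M v u := by
  rw [mB_apply, mB_apply, dotProduct_mulVec, ← mulVec_transpose, hM, neg_mulVec,
    neg_dotProduct, dotProduct_comm]

theorem mB_self {M : Matrix (Fin g ⊕ Fin g) (Fin g ⊕ Fin g) ℂ} (hM : Mᵀ = -M)
    (u : Fin g ⊕ Fin g → ℂ) : mB M u u = 0 := by
  have h := mB_anti hM u u
  linear_combination h / 2

theorem mB_inv {M X : Matrix (Fin g ⊕ Fin g) (Fin g ⊕ Fin g) ℂ} (h : Xᵀ * M + M * X = 0)
    (u v : Fin g ⊕ Fin g → ℂ) : mB M (X *ᵥ u) v + mB M u (X *ᵥ v) = 0 := by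
  rw [mB_apply, mB_apply, mulVec_mulVec, ← vecMul_transpose, ← dotProduct_mulVec,
    mulVec_mulVec, ← dotProduct_add, ← add_mulVec, h, zero_mulVec, dotProduct_zero]

theorem mB_iso {M : Matrix (Fin g ⊕ Fin g) (Fin g ⊕ Fin g) ℂ}
    (hinv : ∀ X ∈ LZ Z, Xᵀ * M + M * X = 0) {c : ℂ} (hc : c ≠ 0) {u v : Fin g ⊕ Fin g → ℂ}
    (hu : u ∈ eig Z c) (hv : v ∈ eig Z c) : mB M u v = 0 := by
  have h1 := mB_inv (hinv _ DZ_mem) u v
  rw [mem_eig.1 hu, mem_eig.1 hv, map_smul, map_smul, LinearMap.smul_apply, smul_eq_mul] at h1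
  have h2 : (2 * c) * mB M u v = 0 := by linear_combination h1
  exact (mul_eq_zero.1 h2).resolve_left (mul_ne_zero two_ne_zero hc)

theorem dim_le (h : PM Z) {M : Matrix (Fin g ⊕ Fin g) (Fin g ⊕ Fin g) ℂ}
    (hinv : ∀ X ∈ LZ Z, Xᵀ * M + M * X = 0) {W : Submodule ℂ (Fin g ⊕ Fin g → ℂ)}
    (hW : Stab (LZ Z) W) (hnd : ∀ u ∈ W, (∀ v ∈ W, u ⬝ᵥ (M *ᵥ v) = 0) → u = 0)
    {c d : ℂ} (hcd : (c = 1 ∧ d = -1) ∨ (c = -1 ∧ d = 1)) :
    finrank ℂ (W ⊓ eig Z c : Submodule ℂ (Fin g ⊕ Fin g → ℂ)) ≤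
      finrank ℂ (W ⊓ eig Z d : Submodule ℂ (Fin g ⊕ Fin g → ℂ)) := by
  have hc : c ≠ 0 := by rcases hcd with ⟨rfl, rfl⟩ | ⟨rfl, rfl⟩ <;> norm_num
  let φ : (W ⊓ eig Z c : Submodule ℂ (Fin g ⊕ Fin g → ℂ)) →ₗ[ℂ]
      Module.Dual ℂ (W ⊓ eig Z d : Submodule ℂ (Fin g ⊕ Fin g → ℂ)) :=
    (mB M).domRestrict₁₂ _ _
  have hφ : Function.Injective φ := by
    rw [injective_iff_map_eq_zero]
    intro u hu
    apply Subtype.ext
    refine hnd u u.2.1 fun w hw => ?_
    change mB M u w = 0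
    obtain ⟨a, ha, b, hb, rfl⟩ := half h hW hw
    rw [map_add]
    rcases hcd with ⟨rfl, rfl⟩ | ⟨rfl, rfl⟩
    · have h1 : mB M u a = 0 := mB_iso hinv hc u.2.2 ha.2
      have h2 : mB M u b = 0 := by
        have h3 := congrArg (fun f => f ⟨b, hb⟩) hu
        exact h3
      rw [h1, h2, add_zero]
    · have h1 : mB M u b = 0 := mB_iso hinv hc u.2.2 hb.2
      have h2 : mB M u a = 0 := by
        have h3 := congrArg (fun f => f ⟨a, ha⟩) hu
        exact h3
      rw [h1, h2, add_zero]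
  have h1 := LinearMap.finrank_le_finrank_of_injective hφ
  rwa [Subspace.dual_finrank_eq] at h1

theorem jTwo : JTwo := by
  intro g Z h M hM hinv W hW hnd hd
  by_contra hr
  have hp : pd Z W = 2 := by
    have h1 := pd_add_qd h hW.2.1
    have h2 := dim_le h hinv hW.2.1 hnd (Or.inl ⟨rfl, rfl⟩)
    have h3 := dim_le h hinv hW.2.1 hnd (Or.inr ⟨rfl, rfl⟩)
    unfold pd qd at *
    omega
  obtain ⟨N, e₁, e₂, f₁, f₂, F⟩ := exists_Fr h hW hr hd hp
  have heig : e₁ ∈ eig Z (-1) ∧ e₂ ∈ eig Z (-1) := by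
    refine ⟨?_, ?_⟩
    · rw [mem_eig, F.de₁, neg_one_smul]
    · rw [mem_eig, F.de₂, neg_one_smul]
  have hfig : f₁ ∈ eig Z 1 ∧ f₂ ∈ eig Z 1 := by
    refine ⟨?_, ?_⟩
    · rw [mem_eig, F.df₁, one_smul]
    · rw [mem_eig, F.df₂, one_smul]
  have m1 : (-1 : ℂ) ≠ 0 := by norm_num
  have e11 : mB M e₁ e₁ = 0 := mB_self hM _
  have e22 : mB M e₂ e₂ = 0 := mB_self hM _
  have e12 : mB M e₁ e₂ = 0 := mB_iso hinv m1 heig.1 heig.2
  have e21 : mB M e₂ e₁ = 0 := mB_iso hinv m1 heig.2 heig.1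
  have f11 : mB M f₁ f₁ = 0 := mB_self hM _
  have f22 : mB M f₂ f₂ = 0 := mB_self hM _
  have f12 : mB M f₁ f₂ = 0 := mB_iso hinv one_ne_zero hfig.1 hfig.2
  have f21 : mB M f₂ f₁ = 0 := mB_iso hinv one_ne_zero hfig.2 hfig.1
  set A := mB M e₁ f₁ with hA
  set B := mB M e₁ f₂ with hB
  set C := mB M e₂ f₂ with hC
  have hsym : mB M e₂ f₁ = B := by
    have h1 := mB_inv (hinv N F.up.mem) e₁ e₂
    rw [F.ne₁, F.ne₂, mB_anti hM f₁ e₂] at h1
    linear_combination -h1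
  -- an isotropic vector
  obtain ⟨x, y, hxy, hq⟩ : ∃ x y : ℂ, (x ≠ 0 ∨ y ≠ 0) ∧
      x * (A * x + B * y) + y * (B * x + C * y) = 0 := by
    by_cases hA0 : A = 0
    · exact ⟨1, 0, Or.inl one_ne_zero, by rw [hA0]; ring⟩
    · obtain ⟨d, hd⟩ := IsAlgClosed.exists_eq_mul_self (B ^ 2 - A * C)
      refine ⟨(-B + d) / A, 1, Or.inr one_ne_zero, ?_⟩
      field_simp
      linear_combination -hd
  have hli : ¬(x • e₁ + y • e₂ = 0) := by
    intro h0
    have h1 := F.ind x y 0 0 (by rw [h0]; simp)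
    rcases hxy with h2 | h2
    · exact h2 h1.1
    · exact h2 h1.2.1
  set u := x • e₁ + y • e₂ with hu
  set v := x • f₁ + y • f₂ with hv
  have huW : u ∈ W := W.add_mem (W.smul_mem _ F.me₁) (W.smul_mem _ F.me₂)
  have hvW : v ∈ W := W.add_mem (W.smul_mem _ F.mf₁) (W.smul_mem _ F.mf₂)
  set s₁ := A * x + B * y with hs₁
  set s₂ := B * x + C * y with hs₂
  have hs : s₁ ≠ 0 ∨ s₂ ≠ 0 := by
    by_contra hcon
    push Not at hcon
    apply hli
    refine hnd u huW fun w hw => ?_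
    change mB M u w = 0
    obtain ⟨a, b, c, d, rfl⟩ := F.gen w hw
    rw [hu]
    simp only [map_add, map_smul, LinearMap.add_apply, LinearMap.smul_apply, smul_eq_mul, e11, e22,
      e12, e21, hsym, ← hA, ← hB, ← hC]
    linear_combination c * hcon.1 + d * hcon.2
  have hst : Stab (LZ Z) (Submodule.span ℂ {u, v}) := by
    have key : ∀ X ∈ LZ Z, X *ᵥ u ∈ Submodule.span ℂ {u, v} ∧
        X *ᵥ v ∈ Submodule.span ℂ {u, v} := by
      intro X hX
      obtain ⟨p, q, r, s, a, b, c, h1, h2, h3, h4⟩ := F.act X hX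
      have hXu : X *ᵥ u = (p * x + q * y) • e₁ + (r * x + s * y) • e₂ + a • v := by
        rw [hu, hv, mulVec_add, mulVec_smul, mulVec_smul, h1, h2]
        module
      have hXv : X *ᵥ v = b • u + (p * x + q * y) • f₁ + (r * x + s * y) • f₂ + c • v := by
        rw [hu, hv, mulVec_add, mulVec_smul, mulVec_smul, h3, h4]
        module
      set α := p * x + q * y with hα
      set β := r * x + s * y with hβ
      have h5 := mB_inv (hinv X hX) u v
      have h6 : mB M (X *ᵥ u) v = α * s₁ + β * s₂ := by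
        rw [hXu, hv]
        simp only [map_add, map_smul, LinearMap.add_apply, LinearMap.smul_apply, smul_eq_mul, f11,
          f22, f12, f21, hsym, ← hA, ← hB, ← hC]
        ring
      have h7 : mB M u (X *ᵥ v) = α * s₁ + β * s₂ := by
        rw [hXv, hu, hv]
        simp only [map_add, map_smul, LinearMap.add_apply, LinearMap.smul_apply, smul_eq_mul, e11,
          e22, e12, e21, hsym, ← hA, ← hB, ← hC]
        linear_combination c * hq
      rw [h6, h7] at h5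
      have h8 : α * s₁ + β * s₂ = 0 := by linear_combination h5 / 2
      have h9 : α * y = β * x := by
        rcases hs with h10 | h10
        · apply mul_right_cancel₀ h10
          linear_combination y * h8 - β * hq
        · apply mul_right_cancel₀ h10
          linear_combination α * hq - x * h8
      obtain ⟨k, hk1, hk2⟩ : ∃ k, α = k * x ∧ β = k * y := by
        rcases hxy with h10 | h10
        · exact ⟨α / x, by field_simp, by field_simp; linear_combination -h9⟩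
        · exact ⟨β / y, by field_simp; linear_combination h9, by field_simp⟩
      have hum : u ∈ Submodule.span ℂ {u, v} := Submodule.subset_span (by simp)
      have hvm : v ∈ Submodule.span ℂ {u, v} := Submodule.subset_span (by simp)
      refine ⟨?_, ?_⟩
      · have h10 : X *ᵥ u = k • u + a • v := by
          rw [hXu, hk1, hk2, hu]
          module
        rw [h10]
        exact Submodule.add_mem _ (Submodule.smul_mem _ _ hum) (Submodule.smul_mem _ _ hvm)
      · have h10 : X *ᵥ v = b • u + (k + c) • v := by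
          rw [hXv, hk1, hk2, hv]
          module
        rw [h10]
        exact Submodule.add_mem _ (Submodule.smul_mem _ _ hum) (Submodule.smul_mem _ _ hvm)
    intro X hX w hw
    obtain ⟨a, b, rfl⟩ := Submodule.mem_span_pair.1 hw
    rw [mulVec_add, mulVec_smul, mulVec_smul]
    exact Submodule.add_mem _ (Submodule.smul_mem _ _ (key X hX).1)
      (Submodule.smul_mem _ _ (key X hX).2)
  have hle : Submodule.span ℂ {u, v} ≤ W := by
    rw [Submodule.span_le]
    rintro w (rfl | hw)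
    · exact huW
    · rw [Set.mem_singleton_iff.1 hw]
      exact hvW
  rcases hW.2.2 _ hle hst with h1 | h1
  · apply hli
    have h2 : u ∈ Submodule.span ℂ {u, v} := Submodule.subset_span (by simp)
    rw [h1, Submodule.mem_bot] at h2
    exact h2
  · have h2 : finrank ℂ (Submodule.span ℂ ({u, v} : Set (Fin g ⊕ Fin g → ℂ))) ≤ 2 := by
      have h3 := finrank_span_le_card (R := ℂ) ({u, v} : Set (Fin g ⊕ Fin g → ℂ))
      refine h3.trans ?_
      rw [Set.toFinset_insert, Set.toFinset_singleton]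
      exact Finset.card_le_two
    rw [h1, hd] at h2
    omega

/-- If the conjugate complex structure is a scalar on the submodule then the eigenspaces of the
complex structure on the conjugate submodule are trivial. -/
theorem not_scalar {W : Submodule ℂ (Fin g ⊕ Fin g → ℂ)}
    (hd : finrank ℂ W = 4) (σ : ℂ ≃+* ℂ) (hp : pd Z (cjS σ.symm W) = 2) (c : ℂ)
    (hc : ∀ u ∈ W, DS Z σ *ᵥ u = c • u) : False := by
  have h1 : ∀ u ∈ cjS σ.symm W, DZ Z *ᵥ u = σ.symm c • u := by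
    intro u hu
    have hu' : (fun i => σ (u i)) ∈ W := hu
    have h2 := hc _ hu'
    have h3 := map_mulVec_aut σ (DZ Z) u
    have h4 : (fun i => σ ((DZ Z *ᵥ u) i)) = c • fun i => σ (u i) := by
      rw [h3]
      exact h2
    funext i
    have h5 := congrFun h4 i
    apply σ.injective
    rw [h5]
    simp
  have h2 : cjS σ.symm W ⊓ eig Z 1 ≠ ⊥ := by
    intro h0
    unfold pd at hp
    rw [h0, finrank_bot] at hp
    exact absurd hp (by norm_num)
  obtain ⟨u, hu, hu0⟩ := (Submodule.ne_bot_iff _).1 h2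
  have h3 : σ.symm c = 1 := by
    have h4 := h1 u hu.1
    have h5 : DZ Z *ᵥ u = (1 : ℂ) • u := hu.2
    rw [h5] at h4
    have h6 : (1 - σ.symm c) • u = 0 := by rw [sub_smul, ← h4, sub_self]
    have h7 := (smul_eq_zero.1 h6).resolve_right hu0
    linear_combination -h7
  have h4 : cjS σ.symm W ⊓ eig Z 1 = cjS σ.symm W := by
    rw [inf_eq_left]
    intro w hw
    rw [mem_eig, h1 w hw, h3]
  unfold pd at hp
  rw [h4, finrank_cjS, hd] at hp
  omega

theorem jTwoTwo : JTwoTwo := by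
  intro g Z h W hW hd hp hn
  by_contra hr
  have hp0 : pd Z W = 2 := by
    have h1 : cjS (RingEquiv.refl ℂ) W = W := by
      ext v
      rfl
    rw [← h1]
    exact hp _
  obtain ⟨N, e₁, e₂, f₁, f₂, F⟩ := exists_Fr h hW hr hd hp0
  -- coordinates
  let T : (Fin 4 → ℂ) →ₗ[ℂ] (Fin g ⊕ Fin g → ℂ) :=
    (LinearMap.proj 0).smulRight e₁ + (LinearMap.proj 1).smulRight e₂ +
      (LinearMap.proj 2).smulRight f₁ + (LinearMap.proj 3).smulRight f₂
  have hT : ∀ x, T x = x 0 • e₁ + x 1 • e₂ + x 2 • f₁ + x 3 • f₂ := fun x => rfl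
  have hTk : LinearMap.ker T = ⊥ := by
    rw [LinearMap.ker_eq_bot']
    intro x hx
    rw [hT] at hx
    obtain ⟨h0, h1, h2, h3⟩ := F.ind _ _ _ _ hx
    funext i
    fin_cases i
    · exact h0
    · exact h1
    · exact h2
    · exact h3
  obtain ⟨G, hG⟩ := T.exists_leftInverse_of_injective hTk
  have hGT : ∀ x, G (T x) = x := fun x => congrArg (fun f => f x) hG
  have hTW : ∀ w ∈ W, ∃ x, w = T x := by
    intro w hw
    obtain ⟨a, b, c, d, rfl⟩ := F.gen w hw
    exact ⟨![a, b, c, d], rfl⟩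
  have hTm : ∀ x, T x ∈ W := by
    intro x
    rw [hT]
    exact W.add_mem (W.add_mem (W.add_mem (W.smul_mem _ F.me₁) (W.smul_mem _ F.me₂))
      (W.smul_mem _ F.mf₁)) (W.smul_mem _ F.mf₂)
  obtain ⟨b, hb⟩ : ∃ b : (Fin g ⊕ Fin g → ℂ) →ₗ[ℂ] (Fin g ⊕ Fin g → ℂ) →ₗ[ℂ] ℂ,
      ∀ x y, b (T x) (T y) = x 2 * y 1 - x 3 * y 0 - x 0 * y 3 + x 1 * y 2 := by
    let x0 : (Fin g ⊕ Fin g → ℂ) →ₗ[ℂ] ℂ := (LinearMap.proj 0).comp G
    let x1 : (Fin g ⊕ Fin g → ℂ) →ₗ[ℂ] ℂ := (LinearMap.proj 1).comp G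
    let x2 : (Fin g ⊕ Fin g → ℂ) →ₗ[ℂ] ℂ := (LinearMap.proj 2).comp G
    let x3 : (Fin g ⊕ Fin g → ℂ) →ₗ[ℂ] ℂ := (LinearMap.proj 3).comp G
    refine ⟨x2.smulRight x1 - x3.smulRight x0 - x0.smulRight x3 + x1.smulRight x2,
      fun x y => ?_⟩
    have h1 : (x2.smulRight x1 - x3.smulRight x0 - x0.smulRight x3 + x1.smulRight x2 :
      (Fin g ⊕ Fin g → ℂ) →ₗ[ℂ] (Fin g ⊕ Fin g → ℂ) →ₗ[ℂ] ℂ) (T x) (T y) =
      G (T x) 2 * G (T y) 1 - G (T x) 3 * G (T y) 0
      - G (T x) 0 * G (T y) 3 + G (T x) 1 * G (T y) 2 := rfl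
    rw [h1, hGT, hGT]
  -- semi-invariance
  have hsemi : ∀ X ∈ LZ Z, ∃ l : ℂ, ∀ u ∈ W, ∀ v ∈ W, b (X *ᵥ u) v + b u (X *ᵥ v) = l * b u v := by
    intro X hX
    obtain ⟨p, q, r, s, a, β, c, h1, h2, h3, h4⟩ := F.act X hX
    have hXT : ∀ x, X *ᵥ T x = T ![p * x 0 + q * x 1 + β * x 2, r * x 0 + s * x 1 + β * x 3,
        a * x 0 + (p + c) * x 2 + q * x 3, a * x 1 + r * x 2 + (s + c) * x 3] := by
      intro x
      rw [hT, hT]
      simp only [mulVec_add, mulVec_smul, h1, h2, h3, h4, Matrix.cons_val_zero,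
        Matrix.cons_val_one, Matrix.cons_val]
      module
    refine ⟨p + s + c, fun u hu v hv => ?_⟩
    obtain ⟨x, rfl⟩ := hTW u hu
    obtain ⟨y, rfl⟩ := hTW v hv
    rw [hXT, hXT, hb, hb, hb]
    simp only [Matrix.cons_val_zero, Matrix.cons_val_one, Matrix.cons_val]
    ring
  have hnd : ∀ u ∈ W, (∀ v ∈ W, b u v = 0) → u = 0 := by
    intro u hu hcon
    obtain ⟨x, rfl⟩ := hTW u hu
    have h0 := hcon _ (hTm ![1, 0, 0, 0])
    have h1 := hcon _ (hTm ![0, 1, 0, 0])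
    have h2 := hcon _ (hTm ![0, 0, 1, 0])
    have h3 := hcon _ (hTm ![0, 0, 0, 1])
    rw [hb] at h0 h1 h2 h3
    simp at h0 h1 h2 h3
    have h4 : x = 0 := by
      funext i
      fin_cases i
      · exact h3
      · exact h2
      · exact h1
      · exact h0
    rw [h4, map_zero]
  apply hn
  refine ⟨b, ?_, ?_⟩
  · by_contra hcon
    push Not at hcon
    exact hW.1 ((Submodule.eq_bot_iff _).2 fun u hu => hnd u hu (hcon u hu))
  · have hD : ∀ σ : ℂ ≃+* ℂ, ∀ u ∈ W, ∀ v ∈ W, b (DS Z σ *ᵥ u) v + b u (DS Z σ *ᵥ v) = 0 := by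
      intro σ
      obtain ⟨l, hl⟩ := hsemi _ (DS_mem σ)
      have hDD : ∀ u, DS Z σ *ᵥ (DS Z σ *ᵥ u) = u := fun u => by
        rw [mulVec_mulVec, DS_sq h.det, one_mulVec]
      have hDW : ∀ u ∈ W, DS Z σ *ᵥ u ∈ W := hW.2.1 _ (DS_mem σ)
      by_cases hl0 : l = 0
      · intro u hu v hv
        rw [hl u hu v hv, hl0, zero_mul]
      · exfalso
        refine not_scalar hd σ (hp _) (l / 2) fun u hu => ?_
        refine sub_eq_zero.1 (hnd _ (W.sub_mem (hDW u hu) (W.smul_mem _ hu)) fun v hv => ?_)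
        have h1 := hl u hu v hv
        have h2 := hl _ (hDW u hu) v hv
        have h3 := hl u hu _ (hDW v hv)
        rw [hDD] at h2 h3
        have h4 : l * (b (DS Z σ *ᵥ u) v - b u (DS Z σ *ᵥ v)) = 0 := by
          linear_combination h3 - h2
        have h5 := (mul_eq_zero.1 h4).resolve_left hl0
        rw [map_sub, map_smul, LinearMap.sub_apply, LinearMap.smul_apply, smul_eq_mul]
        linear_combination h1 / 2 + h5 / 2
    let C : Submodule ℂ (Matrix (Fin g ⊕ Fin g) (Fin g ⊕ Fin g) ℂ) :=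
      { carrier := {y | (∀ u ∈ W, y *ᵥ u ∈ W) ∧
          ∀ u ∈ W, ∀ v ∈ W, b (y *ᵥ u) v + b u (y *ᵥ v) = 0}
        add_mem' := fun {x y} hx hy => ⟨fun u hu => by
            rw [add_mulVec]
            exact W.add_mem (hx.1 u hu) (hy.1 u hu), fun u hu v hv => by
          have h1 := hx.2 u hu v hv
          have h2 := hy.2 u hu v hv
          rw [add_mulVec, add_mulVec, map_add, map_add, LinearMap.add_apply]
          linear_combination h1 + h2⟩
        zero_mem' := ⟨fun u _ => by rw [zero_mulVec]; exact W.zero_mem, fun u _ v _ => by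
          rw [zero_mulVec, zero_mulVec, map_zero, map_zero, LinearMap.zero_apply, add_zero]⟩
        smul_mem' := fun c y hy => ⟨fun u hu => by
            rw [smul_mulVec]
            exact W.smul_mem c (hy.1 u hu), fun u hu v hv => by
          have h1 := hy.2 u hu v hv
          rw [smul_mulVec, smul_mulVec, map_smul, map_smul, LinearMap.smul_apply, ← smul_add, h1,
            smul_zero]⟩ }
    have hC : LZ Z ≤ C := by
      refine LZ_le (fun σ => ⟨hW.2.1 _ (DS_mem σ), hD σ⟩) (fun y hy z hz => ⟨fun u hu => ?_,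
        fun u hu v hv => ?_⟩)
      · rw [sub_mulVec, ← mulVec_mulVec, ← mulVec_mulVec]
        exact W.sub_mem (hy.1 _ (hz.1 u hu)) (hz.1 _ (hy.1 u hu))
      · have e1 := hy.2 _ (hz.1 u hu) v hv
        have e2 := hz.2 _ (hy.1 u hu) v hv
        have e3 := hy.2 u hu _ (hz.1 v hv)
        have e4 := hz.2 u hu _ (hy.1 v hv)
        rw [sub_mulVec, sub_mulVec, map_sub, map_sub, LinearMap.sub_apply, ← mulVec_mulVec,
          ← mulVec_mulVec, ← mulVec_mulVec, ← mulVec_mulVec]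
        linear_combination e1 - e2 + e3 - e4
    exact fun X hX => (hC hX).2

end

end Pool.Agent.Y79.S4
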